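import Pool.Agent.Helper66.EbbaVar

/-!
# Module K for MP_ebba11_co
-/

namespace Pool.Agent.Helper97.Ebba

open Pool.Agent.Helper66.Ebba MvPolynomial

/-- The coordinates as a sum type. -/
def varEquiv : Var ≃ ((Fin 2 ⊕ (Fin 4 × Fin 2)) ⊕ (Fin 3 ⊕ (Fin 2 × Fin 3))) ⊕ Fin 10 where
  toFun
    | .z s => .inl (.inl (.inl s))
    | .A r s => .inl (.inl (.inr (r, s)))
    | .xi c => .inl (.inr (.inl c))
    | .Y s c => .inl (.inr (.inr (s, c)))
    | .o k => .inr k
  invFun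
    | .inl (.inl (.inl s)) => .z s
    | .inl (.inl (.inr (r, s))) => .A r s
    | .inl (.inr (.inl c)) => .xi c
    | .inl (.inr (.inr (s, c))) => .Y s c
    | .inr k => .o k
  left_inv v := by cases v <;> rfl
  right_inv v := by rcases v with ((_ | ⟨_, _⟩) | (_ | ⟨_, _⟩)) | _ <;> rfl

theorem prod_var {M : Type*} [CommMonoid M] (f : Var → M) :
    ∏ v, f v = (∏ s, f (.z s)) * (∏ r, ∏ s, f (.A r s)) * ((∏ c, f (.xi c)) *
      (∏ s, ∏ c, f (.Y s c))) * ∏ k, f (.o k) := by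
  rw [← varEquiv.symm.prod_comp f]
  simp only [Fintype.prod_sum_type, Fintype.prod_prod_type]
  rfl

/-- Exponent vector after the substitution (a). -/
noncomputable def T (m : Var →₀ ℕ) : Var →₀ ℕ := Finsupp.equivFunOnFinite.symm fun v =>
  match v with
  | .z s => m (.z s) + ∑ r, m (.A r (1 - s))
  | .A r s => if s = 0 then m (.A r 0) + m (.A r 1) else 0
  | .xi c => m (.xi c)
  | .Y s c => m (.Y s c)
  | .o k => m (.o k)

/-- Point after the substitution (a). -/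
def subA (D : Var → ℂ) : Var → ℂ
  | .z s => D (.z s)
  | .A r s => if s = 0 then D (.A r 0) * D (.z 1) else -(D (.A r 0) * D (.z 0))
  | .xi c => D (.xi c)
  | .Y s c => D (.Y s c)
  | .o k => D (.o k)

theorem prod_subA (D : Var → ℂ) (m : Var →₀ ℕ) :
    ∏ v, subA D v ^ m v = (-1) ^ (∑ r, m (.A r 1)) * ∏ v, D v ^ T m v := by
  rw [prod_var, prod_var]
  simp only [T, subA, Finsupp.equivFunOnFinite_symm_apply_apply, Fin.prod_univ_two,
    Fin.prod_univ_four, Fin.sum_univ_four, if_true, Fin.isValue]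
  have h10 : (1 : Fin 2) - 0 = 1 := rfl
  have h11 : (1 : Fin 2) - 1 = 0 := rfl
  have h01 : (1 : Fin 2) ≠ 0 := by decide
  simp only [h10, h11, if_neg h01, neg_pow (_ * _), mul_pow, pow_add, pow_zero]
  ring

theorem T_inj {m m₀ : Var →₀ ℕ} (h : Std m) (h₀ : Std m₀)
    (hz : 0 < m₀ (.z 0) ∨ 0 < m₀ (.z 1)) (hT : T m = T m₀) : m = m₀ := by
  have e := fun v => DFunLike.congr_fun hT v
  have ez0 := e (.z 0)
  have ez1 := e (.z 1)
  have eA := fun r => e (.A r 0)
  have ex := fun c => e (.xi c)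
  have eY := fun s c => e (.Y s c)
  have eo := fun k => e (.o k)
  have h10 : (1 : Fin 2) - 0 = 1 := rfl
  have h11 : (1 : Fin 2) - 1 = 0 := rfl
  simp only [T, Finsupp.equivFunOnFinite_symm_apply_apply, if_true, h10, h11,
    Fin.sum_univ_four] at ez0 ez1 eA ex eY eo
  have e0 := eA 0
  have e1 := eA 1
  have e2 := eA 2
  have e3 := eA 3
  obtain ⟨ha, hb⟩ := h
  obtain ⟨ha0, hb0⟩ := h₀
  have key : m (.z 0) = m₀ (.z 0) ∧ m (.z 1) = m₀ (.z 1) ∧
      (m (.A 0 0) = m₀ (.A 0 0) ∧ m (.A 1 0) = m₀ (.A 1 0) ∧ m (.A 2 0) = m₀ (.A 2 0) ∧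
        m (.A 3 0) = m₀ (.A 3 0)) ∧
      (m (.A 0 1) = m₀ (.A 0 1) ∧ m (.A 1 1) = m₀ (.A 1 1) ∧ m (.A 2 1) = m₀ (.A 2 1) ∧
        m (.A 3 1) = m₀ (.A 3 1)) := by
    have a0 := ha 0
    have a1 := ha 1
    have a2 := ha 2
    have a3 := ha 3
    have a00 := ha0 0
    have a01 := ha0 1
    have a02 := ha0 2
    have a03 := ha0 3
    by_cases h1 : 0 < m₀ (.z 0)
    · have a00 : m₀ (.A 0 0) = 0 := a00.resolve_right h1.ne'
      have a01 : m₀ (.A 1 0) = 0 := a01.resolve_right h1.ne'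
      have a02 : m₀ (.A 2 0) = 0 := a02.resolve_right h1.ne'
      have a03 : m₀ (.A 3 0) = 0 := a03.resolve_right h1.ne'
      have h2 : 0 < m (.z 0) := by omega
      have a0 : m (.A 0 0) = 0 := a0.resolve_right h2.ne'
      have a1 : m (.A 1 0) = 0 := a1.resolve_right h2.ne'
      have a2 : m (.A 2 0) = 0 := a2.resolve_right h2.ne'
      have a3 : m (.A 3 0) = 0 := a3.resolve_right h2.ne'
      omega
    · by_cases h2 : 0 < m (.z 0)
      · have a0 : m (.A 0 0) = 0 := a0.resolve_right h2.ne'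
        have a1 : m (.A 1 0) = 0 := a1.resolve_right h2.ne'
        have a2 : m (.A 2 0) = 0 := a2.resolve_right h2.ne'
        have a3 : m (.A 3 0) = 0 := a3.resolve_right h2.ne'
        clear a00 a01 a02 a03
        omega
      · have hz1 : 0 < m (.z 1) := by omega
        have hz1' : 0 < m₀ (.z 1) := by omega
        have hb' : ∀ r r', r < r' → m (.A r 1) = 0 ∨ m (.A r' 0) = 0 := fun r r' hr =>
          (hb r r' hr).resolve_left hz1.ne'
        have hc' : ∀ r r', r < r' → m₀ (.A r 1) = 0 ∨ m₀ (.A r' 0) = 0 := fun r r' hr =>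
          (hb0 r r' hr).resolve_left hz1'.ne'
        clear a0 a1 a2 a3 a00 a01 a02 a03 ha hb ha0 hb0 ex eY eo eA e hT
        have d0 : m (.A 0 0) = m₀ (.A 0 0) := by
          have b01 := hb' 0 1 (by decide)
          have b02 := hb' 0 2 (by decide)
          have b03 := hb' 0 3 (by decide)
          have c01 := hc' 0 1 (by decide)
          have c02 := hc' 0 2 (by decide)
          have c03 := hc' 0 3 (by decide)
          omega
        have d1 : m (.A 1 0) = m₀ (.A 1 0) := by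
          have b12 := hb' 1 2 (by decide)
          have b13 := hb' 1 3 (by decide)
          have c12 := hc' 1 2 (by decide)
          have c13 := hc' 1 3 (by decide)
          omega
        have d2 : m (.A 2 0) = m₀ (.A 2 0) := by
          have b23 := hb' 2 3 (by decide)
          have c23 := hc' 2 3 (by decide)
          omega
        omega
  obtain ⟨k1, k2, ⟨k3, k4, k5, k6⟩, k7, k8, k9, k10⟩ := key
  ext v
  cases v with
  | z s => fin_cases s <;> assumption
  | A r s => fin_cases r <;> fin_cases s <;> assumption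
  | xi c => exact ex c
  | Y s c => exact eY s c
  | o k => exact eo k

/-- Step 1: no monomial of `φ` contains `z 0` or `z 1`. -/
theorem no_z (φ : MvPolynomial Var ℂ) (hstd : ∀ m ∈ φ.support, Std m)
    (ha : ∀ D : Var → ℂ,
      (∃ β : Fin 4 → ℂ, ∀ r, D (Var.A r 0) = β r * D (Var.z 1) ∧
        D (Var.A r 1) = -(β r * D (Var.z 0))) → eval D φ = 0) :
    ∀ m ∈ φ.support, m (.z 0) = 0 ∧ m (.z 1) = 0 := by
  classical
  have hq : ∑ m ∈ φ.support, monomial (T m) (coeff m φ * (-1) ^ (∑ r, m (.A r 1))) = 0 := by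
    apply MvPolynomial.funext
    intro D
    have h := ha (subA D) ⟨fun r => D (.A r 0), fun r => ⟨by simp [subA], by simp [subA]⟩⟩
    rw [eval_eq'] at h
    rw [map_sum, map_zero, ← h]
    refine Finset.sum_congr rfl fun m _ => ?_
    rw [eval_monomial, Finsupp.prod_fintype _ _ (fun _ => pow_zero _), prod_subA]
    ring
  intro m₀ hm₀
  by_contra hcon
  have hz : 0 < m₀ (.z 0) ∨ 0 < m₀ (.z 1) := by omega
  have h1 := congrArg (coeff (T m₀)) hq
  rw [coeff_sum, coeff_zero, Finset.sum_eq_single m₀] at h1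
  · rw [coeff_monomial, if_pos rfl] at h1
    have h2 : ((-1 : ℂ) ^ (∑ r, m₀ (.A r 1))) ≠ 0 := pow_ne_zero _ (by norm_num)
    exact mem_support_iff.1 hm₀ ((mul_eq_zero.1 h1).resolve_right h2)
  · intro m hm hne
    rw [coeff_monomial, if_neg]
    intro hT
    exact hne (T_inj (hstd m hm) (hstd m₀ hm₀) hz hT)
  · intro h
    exact absurd hm₀ h

/-- Row degrees. -/
noncomputable def rowdeg (m : Var →₀ ℕ) : Fin 4 →₀ ℕ :=
  Finsupp.equivFunOnFinite.symm fun r => m (.A r 0) + m (.A r 1)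

theorem rowdeg_apply (m : Var →₀ ℕ) (r : Fin 4) : rowdeg m r = m (.A r 0) + m (.A r 1) := rfl

/-- Scaling of the rows. -/
def scale (l : Fin 4 → ℂ) (D : Var → ℂ) : Var → ℂ
  | .A r s => l r * D (.A r s)
  | v => D v

theorem prod_scale (l : Fin 4 → ℂ) (D : Var → ℂ) (m : Var →₀ ℕ) :
    ∏ v, scale l D v ^ m v = (∏ r, l r ^ rowdeg m r) * ∏ v, D v ^ m v := by
  rw [prod_var, prod_var]
  simp only [rowdeg_apply, scale, Fin.prod_univ_two, Fin.prod_univ_four, mul_pow, pow_add]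
  ring

/-- The points of type (b). -/
def Zb (D : Var → ℂ) : Prop :=
  D (Var.z 0) = 0 ∧ D (Var.z 1) = 0 ∧
      (∃ (β : Fin 4 → ℂ) (ζ : Fin 2 → ℂ), ∀ r,
        D (Var.A r 0) = β r * (ζ 1 - ∑ c : Fin 3,
          if c.val + r.val < 3 then D (Var.xi c) * D (Var.Y 1 c) else 0) ∧
        D (Var.A r 1) = -(β r * (ζ 0 - ∑ c : Fin 3,
          if c.val + r.val < 3 then D (Var.xi c) * D (Var.Y 0 c) else 0)))

theorem Zb_scale {D : Var → ℂ} (h : Zb D) (l : Fin 4 → ℂ) : Zb (scale l D) := by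
  obtain ⟨h0, h1, β, ζ, h⟩ := h
  refine ⟨h0, h1, fun r => l r * β r, ζ, fun r => ?_⟩
  simp only [scale, (h r).1, (h r).2]
  exact ⟨by ring, by ring⟩

/-- The component of row degree `e`. -/
noncomputable def comp (e : Fin 4 →₀ ℕ) (φ : MvPolynomial Var ℂ) : MvPolynomial Var ℂ :=
  ∑ m ∈ φ.support.filter (fun m => rowdeg m = e), monomial m (coeff m φ)

theorem coeff_comp (e : Fin 4 →₀ ℕ) (φ : MvPolynomial Var ℂ) (m : Var →₀ ℕ) :
    coeff m (comp e φ) = if rowdeg m = e then coeff m φ else 0 := by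
  classical
  unfold comp
  rw [coeff_sum]
  simp only [coeff_monomial]
  rw [Finset.sum_ite_eq' (φ.support.filter fun m => rowdeg m = e) m fun m => coeff m φ]
  by_cases h : rowdeg m = e
  · by_cases h' : coeff m φ = 0
    · simp [h, h']
    · simp [h, h']
  · simp [h]

theorem eval_comp (e : Fin 4 →₀ ℕ) (φ : MvPolynomial Var ℂ) (D : Var → ℂ) :
    eval D (comp e φ) = ∑ m ∈ φ.support.filter (fun m => rowdeg m = e),
      coeff m φ * ∏ v, D v ^ m v := by
  unfold comp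
  rw [map_sum]
  refine Finset.sum_congr rfl fun m _ => ?_
  rw [eval_monomial, Finsupp.prod_fintype _ _ (fun _ => pow_zero _)]

theorem comp_vanish (φ : MvPolynomial Var ℂ) (hb : ∀ D, Zb D → eval D φ = 0)
    (e : Fin 4 →₀ ℕ) : ∀ D, Zb D → eval D (comp e φ) = 0 := by
  classical
  intro D hD
  have hq : (∑ m ∈ φ.support, monomial (rowdeg m) (coeff m φ * ∏ v, D v ^ m v) :
      MvPolynomial (Fin 4) ℂ) = 0 := by
    apply MvPolynomial.funext
    intro l
    have h := hb _ (Zb_scale hD l)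
    rw [eval_eq'] at h
    rw [map_sum, map_zero, ← h]
    refine Finset.sum_congr rfl fun m _ => ?_
    rw [eval_monomial, Finsupp.prod_fintype _ _ (fun _ => pow_zero _), prod_scale]
    ring
  have h1 := congrArg (coeff e) hq
  rw [coeff_sum, coeff_zero] at h1
  simp only [coeff_monomial] at h1
  rw [eval_comp, Finset.sum_filter]
  exact h1

/-- A polynomial vanishing wherever a nonzero polynomial does not vanish is zero. -/
theorem eq_zero_of_generic {φ : MvPolynomial Var ℂ} (H : MvPolynomial Var ℂ) (hH : H ≠ 0)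
    (h : ∀ D, eval D H ≠ 0 → eval D φ = 0) : φ = 0 := by
  have h1 : H * φ = 0 := by
    apply MvPolynomial.funext
    intro D
    rw [map_mul, map_zero]
    by_cases h0 : eval D H = 0
    · rw [h0, zero_mul]
    · rw [h D h0, mul_zero]
  exact (mul_eq_zero.1 h1).resolve_left hH

/-- The offset `π_r`. -/
noncomputable def piv (D : Var → ℂ) (r : Fin 4) (s : Fin 2) : ℂ :=
  ∑ c : Fin 3, if c.val + r.val < 3 then D (Var.xi c) * D (Var.Y s c) else 0

/-- The offset, as a polynomial. -/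
noncomputable def pivP (r : Fin 4) (s : Fin 2) : MvPolynomial Var ℂ :=
  ∑ c : Fin 3, if c.val + r.val < 3 then X (Var.xi c) * X (Var.Y s c) else 0

theorem eval_pivP (D : Var → ℂ) (r : Fin 4) (s : Fin 2) : eval D (pivP r s) = piv D r s := by
  unfold pivP piv
  rw [map_sum]
  refine Finset.sum_congr rfl fun c _ => ?_
  split_ifs <;> simp

/-- The point used in case 1. -/
def pt1 (k k' : ℂ) (r₀ r₁ : Fin 4) (D : Var → ℂ) : Var → ℂ
  | .z _ => 0
  | .A r s => if r = r₀ then k * D (.A r s) else if r = r₁ then k' * D (.A r s) else 0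
  | .xi c => D (.xi c)
  | .Y s c => D (.Y s c)
  | .o j => D (.o j)

theorem prod_pt1 (k k' : ℂ) {r₀ r₁ : Fin 4} (h01 : r₀ ≠ r₁) (D : Var → ℂ) (m : Var →₀ ℕ)
    (hz : m (.z 0) = 0 ∧ m (.z 1) = 0)
    (hm : ∀ r, r ≠ r₀ → r ≠ r₁ → m (.A r 0) = 0 ∧ m (.A r 1) = 0) :
    ∏ v, pt1 k k' r₀ r₁ D v ^ m v =
      k ^ (m (.A r₀ 0) + m (.A r₀ 1)) * k' ^ (m (.A r₁ 0) + m (.A r₁ 1)) *
        ∏ v, D v ^ m v := by
  rw [prod_var, prod_var]
  have hA : ∏ r, ∏ s, pt1 k k' r₀ r₁ D (.A r s) ^ m (.A r s) =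
      k ^ (m (.A r₀ 0) + m (.A r₀ 1)) * k' ^ (m (.A r₁ 0) + m (.A r₁ 1)) *
        ∏ r, ∏ s, D (.A r s) ^ m (.A r s) := by
    have e1 : ∀ r, ∏ s, pt1 k k' r₀ r₁ D (.A r s) ^ m (.A r s) =
        ((if r = r₀ then k ^ (m (.A r₀ 0) + m (.A r₀ 1)) else 1) *
          (if r = r₁ then k' ^ (m (.A r₁ 0) + m (.A r₁ 1)) else 1)) *
        ∏ s, D (.A r s) ^ m (.A r s) := by
      intro r
      simp only [Fin.prod_univ_two, pt1]
      by_cases hr0 : r = r₀
      · subst hr0
        simp only [if_true, if_neg h01, mul_pow, pow_add]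
        ring
      · by_cases hr1 : r = r₁
        · subst hr1
          simp only [if_neg hr0, if_true, mul_pow, pow_add]
          ring
        · simp only [if_neg hr0, if_neg hr1, (hm r hr0 hr1).1, (hm r hr0 hr1).2]
          simp
    rw [Finset.prod_congr rfl fun r _ => e1 r, Finset.prod_mul_distrib, Finset.prod_mul_distrib,
      Finset.prod_ite_eq', Finset.prod_ite_eq']
    simp
  rw [hA]
  simp only [pt1, Fin.prod_univ_two, hz.1, hz.2, pow_zero]
  ring

theorem pt1_Zb {k k' : ℂ} {r₀ r₁ : Fin 4} (h01 : r₀ ≠ r₁) {D : Var → ℂ}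
    (h1 : k * D (.A r₀ 0) - k' * D (.A r₁ 0) = -(piv D r₀ 1 - piv D r₁ 1))
    (h2 : k * D (.A r₀ 1) - k' * D (.A r₁ 1) = piv D r₀ 0 - piv D r₁ 0) :
    Zb (pt1 k k' r₀ r₁ D) := by
  refine ⟨rfl, rfl, fun r => if r = r₀ ∨ r = r₁ then 1 else 0,
    fun s => if s = 0 then piv D r₀ 0 - k * D (.A r₀ 1) else piv D r₀ 1 + k * D (.A r₀ 0),
    fun r => ?_⟩
  have e0 : ∀ s, (∑ c : Fin 3, if c.val + r.val < 3 then
      pt1 k k' r₀ r₁ D (Var.xi c) * pt1 k k' r₀ r₁ D (Var.Y s c) else 0) = piv D r s :=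
    fun s => rfl
  rw [e0, e0]
  simp only [pt1]
  have h10 : (1 : Fin 2) ≠ 0 := by decide
  by_cases hr0 : r = r₀
  · subst hr0
    simp only [if_true, true_or, if_neg h10]
    exact ⟨by ring, by ring⟩
  · by_cases hr1 : r = r₁
    · subst hr1
      simp only [if_neg hr0, if_true, or_true, if_neg h10]
      exact ⟨by linear_combination -h1, by linear_combination -h2⟩
    · simp [hr0, hr1]

/-- Case 1: at most two rows occur. -/
theorem case1 (φ : MvPolynomial Var ℂ) (hz : ∀ m ∈ φ.support, m (.z 0) = 0 ∧ m (.z 1) = 0)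
    (hb : ∀ D, Zb D → eval D φ = 0) (e : Fin 4 →₀ ℕ) (he : ∀ m ∈ φ.support, rowdeg m = e)
    (r₀ r₁ : Fin 4) (h01 : r₀ < r₁) (h : ∀ r, r ≠ r₀ → r ≠ r₁ → e r = 0) : φ = 0 := by
  let H : MvPolynomial Var ℂ :=
    (X (.A r₀ 0) * X (.A r₁ 1) - X (.A r₀ 1) * X (.A r₁ 0)) *
      ((-(pivP r₀ 1 - pivP r₁ 1) * X (.A r₁ 1) - (pivP r₀ 0 - pivP r₁ 0) * X (.A r₁ 0)) *
      (-(pivP r₀ 1 - pivP r₁ 1) * X (.A r₀ 1) - (pivP r₀ 0 - pivP r₁ 0) * X (.A r₀ 0)))
  have hH : H ≠ 0 := by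
    intro h0
    have := congrArg (eval (fun v : Var => match v with
      | .A r s => if r = r₀ then (if s = 0 then 1 else 0) else (if s = 0 then 0 else 1)
      | _ => (1 : ℂ))) h0
    simp only [H, map_mul, map_sub, map_neg, eval_X, eval_pivP, piv, map_zero,
      Fin.sum_univ_three] at this
    revert this
    fin_cases r₀ <;> fin_cases r₁ <;> first | (exact absurd h01 (by decide)) | (norm_num)
  refine eq_zero_of_generic H hH fun D hD => ?_
  simp only [H, map_mul, map_sub, map_neg, eval_X, eval_pivP] at hD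
  set a0 := D (.A r₀ 0)
  set a1 := D (.A r₀ 1)
  set b0 := D (.A r₁ 0)
  set b1 := D (.A r₁ 1)
  set d1 := piv D r₀ 1 - piv D r₁ 1 with hd1
  set d0 := piv D r₀ 0 - piv D r₁ 0 with hd0
  rw [mul_ne_zero_iff, mul_ne_zero_iff] at hD
  obtain ⟨hΔ, hK, hK'⟩ := hD
  set Δ := a0 * b1 - a1 * b0 with hΔd
  have hk : (-d1 * b1 - d0 * b0) / Δ ≠ 0 := div_ne_zero hK hΔ
  have hk' : (-d1 * a1 - d0 * a0) / Δ ≠ 0 := div_ne_zero hK' hΔ
  have hZ : Zb (pt1 ((-d1 * b1 - d0 * b0) / Δ) ((-d1 * a1 - d0 * a0) / Δ) r₀ r₁ D) := by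
    apply pt1_Zb h01.ne
    · show (-d1 * b1 - d0 * b0) / Δ * a0 - (-d1 * a1 - d0 * a0) / Δ * b0 = -d1
      field_simp
      rw [hΔd]; ring
    · show (-d1 * b1 - d0 * b0) / Δ * a1 - (-d1 * a1 - d0 * a0) / Δ * b1 = d0
      field_simp
      rw [hΔd]; ring
  have h1 := hb _ hZ
  rw [eval_eq'] at h1 ⊢
  have h2 : ∑ m ∈ φ.support, coeff m φ * ∏ v, pt1 ((-d1 * b1 - d0 * b0) / Δ)
      ((-d1 * a1 - d0 * a0) / Δ) r₀ r₁ D v ^ m v =
      (((-d1 * b1 - d0 * b0) / Δ) ^ e r₀ * ((-d1 * a1 - d0 * a0) / Δ) ^ e r₁) *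
        ∑ m ∈ φ.support, coeff m φ * ∏ v, D v ^ m v := by
    rw [Finset.mul_sum]
    refine Finset.sum_congr rfl fun m hm => ?_
    rw [prod_pt1 _ _ h01.ne D m (hz m hm) (fun r hr0 hr1 => ?_), ← he m hm, rowdeg_apply,
      rowdeg_apply]
    · ring
    · have := h r hr0 hr1
      rw [← he m hm, rowdeg_apply] at this
      omega
  rw [h2] at h1
  exact (mul_eq_zero.1 h1).resolve_left (mul_ne_zero (pow_ne_zero _ hk) (pow_ne_zero _ hk'))

/-- The remaining coordinates. -/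
abbrev U := (Fin 3 ⊕ (Fin 2 × Fin 3)) ⊕ Fin 10

/-- Inclusion of the remaining coordinates. -/
def toVar : U → Var
  | .inl (.inl c) => .xi c
  | .inl (.inr (s, c)) => .Y s c
  | .inr k => .o k

theorem prod_U {M : Type*} [CommMonoid M] (f : Var → M) :
    ∏ j : U, f (toVar j) = ((∏ c, f (.xi c)) * (∏ s, ∏ c, f (.Y s c))) * ∏ k, f (.o k) := by
  simp only [Fintype.prod_sum_type, Fintype.prod_prod_type]
  rfl

theorem sum_U {M : Type*} [AddCommMonoid M] (f : U → M) :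
    ∑ j : U, f j = ((∑ c, f (.inl (.inl c))) + (∑ s, ∑ c, f (.inl (.inr (s, c))))) +
      ∑ k, f (.inr k) := by
  simp only [Fintype.sum_sum_type, Fintype.sum_prod_type]

theorem sum_var (f : Var → ℕ) :
    ∑ v, f v = (∑ s, f (.z s)) + (∑ r, ∑ s, f (.A r s)) + ∑ j : U, f (toVar j) := by
  rw [← varEquiv.symm.sum_comp f]
  simp only [Fintype.sum_sum_type, Fintype.sum_prod_type]
  simp only [add_assoc]
  rfl

theorem prod_affine {ι : Type*} [Fintype ι] [DecidableEq ι] (n : ι → ℕ) (x : ι → ℂ)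
    (h : ∑ j, n j ≤ 1) :
    ∏ j, x j ^ n j = (if ∑ j, n j = 0 then 1 else 0) + ∑ j, (n j : ℂ) * x j := by
  by_cases h0 : ∑ j, n j = 0
  · have h1 : ∀ j, n j = 0 := by simpa using h0
    simp [h1]
  · obtain ⟨j₀, -, hj₀⟩ : ∃ j₀ ∈ Finset.univ, n j₀ ≠ 0 := Finset.exists_ne_zero_of_sum_ne_zero h0
    have h2 : n j₀ + ∑ j ∈ Finset.univ.erase j₀, n j = ∑ j, n j :=
      Finset.add_sum_erase _ _ (Finset.mem_univ _)
    have h3 : n j₀ = 1 := by omega
    have h4 : ∑ j ∈ Finset.univ.erase j₀, n j = 0 := by omega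
    have h5 : ∀ j, j ≠ j₀ → n j = 0 := fun j hj =>
      (Finset.sum_eq_zero_iff.1 h4) j (Finset.mem_erase.2 ⟨hj, Finset.mem_univ _⟩)
    rw [if_neg h0, Finset.prod_eq_single j₀, Finset.sum_eq_single j₀, h3]
    · simp
    · intro j _ hj; simp [h5 j hj]
    · intro h; exact absurd (Finset.mem_univ _) h
    · intro j _ hj; simp [h5 j hj]
    · intro h; exact absurd (Finset.mem_univ _) h

/-- Upper row index of column `c`. -/
def hi : Fin 3 → Fin 4 := ![3, 2, 1]

/-- Lower row index of column `c`. -/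
def lo : Fin 3 → Fin 4 := ![2, 1, 0]

/-- The vectors `e_r`. -/
def ev (a : Fin 4 → Fin 2 → ℂ) (r : Fin 4) : Fin 2 → ℂ := ![-a r 1, a r 0]

/-- The point used in case 2. -/
noncomputable def pt2 (a : Fin 4 → Fin 2 → ℂ) (t : Fin 3 → ℂ) (b : Fin 4 → ℂ) (w : Fin 10 → ℂ) :
    Var → ℂ
  | .z _ => 0
  | .A r s => a r s
  | .xi c => t c
  | .Y s c => (b (hi c) * ev a (hi c) s - b (lo c) * ev a (lo c) s) / t c
  | .o j => w j

theorem pt2_Zb (a : Fin 4 → Fin 2 → ℂ) (t : Fin 3 → ℂ) (b : Fin 4 → ℂ) (w : Fin 10 → ℂ)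
    (ht : ∀ c, t c ≠ 0) (hb : ∀ r, b r ≠ 0) : Zb (pt2 a t b w) := by
  have h0 := ht 0
  have h1 := ht 1
  have h2 := ht 2
  refine ⟨rfl, rfl, fun r => (b r)⁻¹, fun s => b 3 * ev a 3 s, fun r => ?_⟩
  have hbr := hb r
  simp only [pt2, Fin.sum_univ_three, mul_div_cancel₀ _ h0, mul_div_cancel₀ _ h1,
    mul_div_cancel₀ _ h2]
  constructor
  · rw [eq_inv_mul_iff_mul_eq₀ hbr]
    fin_cases r <;> simp [hi, lo, ev]
  · rw [← mul_neg, eq_inv_mul_iff_mul_eq₀ hbr]
    fin_cases r <;> simp [hi, lo, ev]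

/-- Case 2: at least three rows occur. -/
theorem case2 (φ : MvPolynomial Var ℂ) (hz : ∀ m ∈ φ.support, m (.z 0) = 0 ∧ m (.z 1) = 0)
    (hb : ∀ D, Zb D → eval D φ = 0) (hu : ∀ m ∈ φ.support, ∑ j : U, m (toVar j) ≤ 1) :
    φ = 0 := by
  classical
  let H : MvPolynomial Var ℂ := ∏ c : Fin 3,
    (X (.A (hi c) 0) * X (.A (lo c) 1) - X (.A (hi c) 1) * X (.A (lo c) 0))
  have hH : H ≠ 0 := by
    intro h0
    have := congrArg (eval (fun v : Var => match v with
      | .A r s => if r = 3 ∨ r = 1 then (if s = 0 then 1 else 0) else (if s = 0 then 0 else 1)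
      | _ => (1 : ℂ))) h0
    simp [H, hi, lo, Fin.prod_univ_three] at this
  refine eq_zero_of_generic H hH fun D hD => ?_
  -- affine form
  let cA : (Var →₀ ℕ) → (Fin 4 → Fin 2 → ℂ) → ℂ := fun m a => ∏ r, ∏ s, a r s ^ m (.A r s)
  let g0 : (Fin 4 → Fin 2 → ℂ) → ℂ := fun a => ∑ m ∈ φ.support,
    coeff m φ * (cA m a * (if ∑ j : U, m (toVar j) = 0 then 1 else 0))
  let g : U → (Fin 4 → Fin 2 → ℂ) → ℂ := fun j a => ∑ m ∈ φ.support,
    coeff m φ * (cA m a * (m (toVar j) : ℂ))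
  have haff : ∀ D : Var → ℂ, eval D φ = g0 (fun r s => D (.A r s)) +
      ∑ j, g j (fun r s => D (.A r s)) * D (toVar j) := by
    intro D
    rw [eval_eq']
    simp only [g0, g, Finset.sum_mul]
    rw [Finset.sum_comm, ← Finset.sum_add_distrib]
    refine Finset.sum_congr rfl fun m hm => ?_
    have h1 : ∏ v, D v ^ m v = cA m (fun r s => D (.A r s)) *
        ∏ j : U, D (toVar j) ^ m (toVar j) := by
      rw [prod_var, prod_U (fun v => D v ^ m v)]
      simp only [cA, Fin.prod_univ_two (fun s => D (.z s) ^ m (.z s)), (hz m hm).1,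
        (hz m hm).2, pow_zero]
      ring
    rw [h1, prod_affine (fun j => m (toVar j)) (fun j => D (toVar j)) (hu m hm), mul_add,
      mul_add, Finset.mul_sum, Finset.mul_sum]
    congr 1
    refine Finset.sum_congr rfl fun j _ => ?_
    ring
  set a : Fin 4 → Fin 2 → ℂ := fun r s => D (.A r s) with ha
  -- the basic relation
  have hF : ∀ (t : Fin 3 → ℂ) (b : Fin 4 → ℂ) (w : Fin 10 → ℂ), (∀ c, t c ≠ 0) →
      (∀ r, b r ≠ 0) →
      g0 a + ((∑ c, g (.inl (.inl c)) a * t c) + (∑ s, ∑ c, g (.inl (.inr (s, c))) a *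
        ((b (hi c) * ev a (hi c) s - b (lo c) * ev a (lo c) s) / t c)) +
        ∑ k, g (.inr k) a * w k) = 0 := by
    intro t b w ht hb'
    have h1 := hb _ (pt2_Zb a t b w ht hb')
    rw [haff, sum_U] at h1
    exact h1
  have hw : ∀ k, g (.inr k) a = 0 := by
    intro k
    have h1 := hF (fun _ => 1) (fun _ => 1) (Pi.single k 1) (fun _ => one_ne_zero)
      (fun _ => one_ne_zero)
    have h2 := hF (fun _ => 1) (fun _ => 1) 0 (fun _ => one_ne_zero) (fun _ => one_ne_zero)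
    have h3 : ∑ k', g (.inr k') a * (Pi.single k 1 : Fin 10 → ℂ) k' = g (.inr k) a := by
      rw [Finset.sum_eq_single k]
      · simp
      · intro k' _ hk'; simp [hk']
      · intro h; exact absurd (Finset.mem_univ _) h
    have h4 : ∑ k', g (.inr k') a * (0 : Fin 10 → ℂ) k' = 0 := by simp
    rw [h3] at h1
    rw [h4] at h2
    linear_combination h1 - h2
  let R : Fin 3 → (Fin 4 → ℂ) → ℂ := fun c b => ∑ s, g (.inl (.inr (s, c))) a *
        (b (hi c) * ev a (hi c) s - b (lo c) * ev a (lo c) s)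
  have hG : ∀ (t : Fin 3 → ℂ) (b : Fin 4 → ℂ), (∀ c, t c ≠ 0) → (∀ r, b r ≠ 0) →
      g0 a + ∑ c, (g (.inl (.inl c)) a * t c + R c b / t c) = 0 := by
    intro t b ht hb'
    have h1 := hF t b 0 ht hb'
    have h4 : ∑ k', g (.inr k') a * (0 : Fin 10 → ℂ) k' = 0 := by simp
    rw [h4, add_zero, Finset.sum_comm, ← Finset.sum_add_distrib] at h1
    rw [← h1]
    congr 1
    refine Finset.sum_congr rfl fun c _ => ?_
    congr 1
    simp only [R, Finset.sum_div]
    refine Finset.sum_congr rfl fun s _ => ?_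
    rw [mul_div_assoc]
  have key : ∀ b : Fin 4 → ℂ, (∀ r, b r ≠ 0) →
      g0 a = 0 ∧ ∀ c, g (.inl (.inl c)) a = 0 ∧ R c b = 0 := by
    intro b hb'
    have e1 := hG ![1, 1, 1] b (by intro c; fin_cases c <;> simp) hb'
    have e2 := hG ![-1, 1, 1] b (by intro c; fin_cases c <;> simp) hb'
    have e3 := hG ![2, 1, 1] b (by intro c; fin_cases c <;> simp) hb'
    have e4 := hG ![1, -1, 1] b (by intro c; fin_cases c <;> simp) hb'
    have e5 := hG ![1, 2, 1] b (by intro c; fin_cases c <;> simp) hb'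
    have e6 := hG ![1, 1, -1] b (by intro c; fin_cases c <;> simp) hb'
    have e7 := hG ![1, 1, 2] b (by intro c; fin_cases c <;> simp) hb'
    simp only [Fin.sum_univ_three, Matrix.cons_val_zero, Matrix.cons_val_one,
      Matrix.cons_val] at e1 e2 e3 e4 e5 e6 e7
    have r0 : R 0 b = 0 := by linear_combination e1 - (1/3) * e2 - (2/3) * e3
    have r1 : R 1 b = 0 := by linear_combination e1 - (1/3) * e4 - (2/3) * e5
    have r2 : R 2 b = 0 := by linear_combination e1 - (1/3) * e6 - (2/3) * e7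
    have x0 : g (.inl (.inl 0)) a = 0 := by linear_combination e3 - e1 + (1/2) * r0
    have x1 : g (.inl (.inl 1)) a = 0 := by linear_combination e5 - e1 + (1/2) * r1
    have x2 : g (.inl (.inl 2)) a = 0 := by linear_combination e7 - e1 + (1/2) * r2
    refine ⟨by linear_combination e1 - r0 - r1 - r2 - x0 - x1 - x2, fun c => ?_⟩
    fin_cases c
    · exact ⟨x0, r0⟩
    · exact ⟨x1, r1⟩
    · exact ⟨x2, r2⟩
  obtain ⟨hg0, hgx⟩ := key (fun _ => 1) (fun _ => one_ne_zero)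
  have hgY : ∀ c s, g (.inl (.inr (s, c))) a = 0 := by
    intro c
    have hne : hi c ≠ lo c := by fin_cases c <;> decide
    have h1 := (hgx c).2
    have h2 := ((key (Function.update (fun _ => 1) (hi c) 2) (by
      intro r
      by_cases hr : r = hi c
      · subst hr; simp
      · rw [Function.update_of_ne hr]; exact one_ne_zero)).2 c).2
    simp only [R, Fin.sum_univ_two, Function.update_self, Function.update_of_ne hne.symm] at h1 h2
    have h3 : g (.inl (.inr (0, c))) a * ev a (hi c) 0 +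
        g (.inl (.inr (1, c))) a * ev a (hi c) 1 = 0 := by linear_combination h2 - h1
    have h4 : g (.inl (.inr (0, c))) a * ev a (lo c) 0 +
        g (.inl (.inr (1, c))) a * ev a (lo c) 1 = 0 := by linear_combination h2 - 2 * h1
    have hdet : a (hi c) 0 * a (lo c) 1 - a (hi c) 1 * a (lo c) 0 ≠ 0 := by
      have h5 : eval D H ≠ 0 := hD
      simp only [H, map_prod, map_sub, map_mul, eval_X] at h5
      exact (Finset.prod_ne_zero_iff.1 h5) c (Finset.mem_univ _)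
    simp only [ev, Matrix.cons_val_zero, Matrix.cons_val_one] at h3 h4
    have h5 : g (.inl (.inr (0, c))) a = 0 := by
      apply (mul_eq_zero.1 (_ : (a (hi c) 0 * a (lo c) 1 - a (hi c) 1 * a (lo c) 0) *
        g (.inl (.inr (0, c))) a = 0)).resolve_left hdet
      linear_combination (a (lo c) 0) * h3 - (a (hi c) 0) * h4
    have h6 : g (.inl (.inr (1, c))) a = 0 := by
      apply (mul_eq_zero.1 (_ : (a (hi c) 0 * a (lo c) 1 - a (hi c) 1 * a (lo c) 0) *
        g (.inl (.inr (1, c))) a = 0)).resolve_left hdet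
      linear_combination (a (lo c) 1) * h3 - (a (hi c) 1) * h4
    intro s
    fin_cases s
    · exact h5
    · exact h6
  rw [haff, sum_U, ← ha, hg0]
  simp [hw, (fun c => (hgx c).1), hgY]

/-- Module K. -/
theorem keyK (φ : MvPolynomial Var ℂ) (i : ℕ) (hi : i ≤ 4) (hhom : φ.IsHomogeneous i)
    (hstd : ∀ m ∈ φ.support, Std m)
    (ha : ∀ D : Var → ℂ,
      (∃ β : Fin 4 → ℂ, ∀ r, D (Var.A r 0) = β r * D (Var.z 1) ∧
        D (Var.A r 1) = -(β r * D (Var.z 0))) → eval D φ = 0)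
    (hb : ∀ D : Var → ℂ, D (Var.z 0) = 0 → D (Var.z 1) = 0 →
      (∃ (β : Fin 4 → ℂ) (ζ : Fin 2 → ℂ), ∀ r,
        D (Var.A r 0) = β r * (ζ 1 - ∑ c : Fin 3,
          if c.val + r.val < 3 then D (Var.xi c) * D (Var.Y 1 c) else 0) ∧
        D (Var.A r 1) = -(β r * (ζ 0 - ∑ c : Fin 3,
          if c.val + r.val < 3 then D (Var.xi c) * D (Var.Y 0 c) else 0))) → eval D φ = 0) :
    φ = 0 := by
  classical
  have hz := no_z φ hstd ha
  have hb' : ∀ D, Zb D → eval D φ = 0 := fun D hD => hb D hD.1 hD.2.1 hD.2.2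
  ext m₀
  rw [coeff_zero]
  by_contra hm₀
  have hsub : ∀ m ∈ (comp (rowdeg m₀) φ).support, m ∈ φ.support ∧ rowdeg m = rowdeg m₀ := by
    intro m hm
    rw [mem_support_iff, coeff_comp] at hm
    by_cases h : rowdeg m = rowdeg m₀
    · rw [if_pos h] at hm
      exact ⟨mem_support_iff.2 hm, h⟩
    · rw [if_neg h] at hm
      exact absurd rfl hm
  have hc : comp (rowdeg m₀) φ = 0 := by
    have hz' : ∀ m ∈ (comp (rowdeg m₀) φ).support, m (.z 0) = 0 ∧ m (.z 1) = 0 :=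
      fun m hm => hz m (hsub m hm).1
    have hv := comp_vanish φ hb' (rowdeg m₀)
    have he : ∀ m ∈ (comp (rowdeg m₀) φ).support, rowdeg m = rowdeg m₀ :=
      fun m hm => (hsub m hm).2
    generalize rowdeg m₀ = e at hsub hz' hv he
    by_cases h : ∃ r₀ r₁, r₀ < r₁ ∧ ∀ r, r ≠ r₀ → r ≠ r₁ → e r = 0
    · obtain ⟨r₀, r₁, h01, h⟩ := h
      exact case1 _ hz' hv e he r₀ r₁ h01 h
    · refine case2 _ hz' hv fun m hm => ?_
      have h1 := (hsub m hm).1
      have h2 : Finsupp.weight (1 : Var → ℕ) m = i := hhom (mem_support_iff.1 h1)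
      rw [Finsupp.weight_apply, Finsupp.sum_fintype _ _ (fun _ => by simp)] at h2
      simp only [Pi.one_apply, smul_eq_mul, mul_one] at h2
      rw [sum_var] at h2
      have h3 : ∑ r, ∑ s, m (.A r s) = ∑ r, e r := by
        refine Finset.sum_congr rfl fun r _ => ?_
        rw [Fin.sum_univ_two, ← rowdeg_apply, he m hm]
      have h4 : 3 ≤ ∑ r, e r := by
        push Not at h
        rw [Fin.sum_univ_four]
        obtain ⟨r1, a1, b1, c1⟩ := h 0 1 (by decide)
        obtain ⟨r2, a2, b2, c2⟩ := h 0 2 (by decide)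
        obtain ⟨r3, a3, b3, c3⟩ := h 0 3 (by decide)
        obtain ⟨r4, a4, b4, c4⟩ := h 1 2 (by decide)
        obtain ⟨r5, a5, b5, c5⟩ := h 1 3 (by decide)
        obtain ⟨r6, a6, b6, c6⟩ := h 2 3 (by decide)
        have f1 : e 2 ≠ 0 ∨ e 3 ≠ 0 := by fin_cases r1 <;> simp_all
        have f2 : e 1 ≠ 0 ∨ e 3 ≠ 0 := by fin_cases r2 <;> simp_all
        have f3 : e 1 ≠ 0 ∨ e 2 ≠ 0 := by fin_cases r3 <;> simp_all
        have f4 : e 0 ≠ 0 ∨ e 3 ≠ 0 := by fin_cases r4 <;> simp_all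
        have f5 : e 0 ≠ 0 ∨ e 2 ≠ 0 := by fin_cases r5 <;> simp_all
        have f6 : e 0 ≠ 0 ∨ e 1 ≠ 0 := by fin_cases r6 <;> simp_all
        omega
      omega
  have h1 := congrArg (coeff m₀) hc
  rw [coeff_comp, if_pos rfl, coeff_zero] at h1
  exact hm₀ h1

end Pool.Agent.Helper97.Ebba
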